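import Pool.Agent.L7h32.SA.Reg

open Set MeasureTheory
open scoped ENNReal NNReal

namespace Pool.Agent.Results.MP_b039ef_an.AssouadNeLower

open Pool.Agent.L7h32.SA

/-- There are nonsingular linear maps `A i` with norms below `1/2` such that, for a set of
translation vectors `t` of positive Lebesgue measure, the self-affine set `F t` has lower
dimension at most `1` and Assouad dimension at least `2`. -/
theorem result :
    ∃ (d m : ℕ) (A : Fin m → (EuclideanSpace ℝ (Fin d) →L[ℝ] EuclideanSpace ℝ (Fin d))),
      1 ≤ d ∧ 2 ≤ m ∧ (∀ i, Function.Injective (A i) ∧ ‖A i‖ < 1 / 2) ∧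
      ∃ F : (Fin m → EuclideanSpace ℝ (Fin d)) → Set (EuclideanSpace ℝ (Fin d)),
        (∀ t K, IsAttractor A t K ↔ K = F t) ∧
        0 < (volume : Measure (Fin m → EuclideanSpace ℝ (Fin d)))
          {t | lowerDim (F t) ≤ 1 ∧ 2 ≤ assouadDim (F t)} := by
  refine ⟨2, 10, AA, by norm_num, by norm_num,
    fun i => ⟨AA_inj i, (AA_norm i).trans_lt (by norm_num)⟩, ?_⟩
  have hex : ∀ t : Fin 10 → E2, ∃ F, IsAttractor AA t F := fun t =>
    attractor_exists t (by norm_num) (by norm_num) AA_norm AA_inj
  choose F hF using hex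
  refine ⟨F, ?_, ?_⟩
  · intro t K
    constructor
    · intro hK
      exact attractor_unique (by norm_num) (by norm_num) AA_norm hK (hF t)
    · rintro rfl
      exact hF t
  · refine (far_pos far).trans_le (measure_mono ?_)
    intro t ht
    have hc := close_of_ball ht
    exact ⟨lower_le hc (hF t), two_le hc (hF t)⟩

end Pool.Agent.Results.MP_b039ef_an.AssouadNeLower
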