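import Pool.Agent.L7h32.SA.Reg

open Set MeasureTheory
open scoped ENNReal NNReal

namespace Pool.Agent.Results.MP_b039ef_an.LowerNotConstant

open Pool.Agent.L7h32.SA

/-- There are nonsingular linear maps `A i` with norms below `1/2` such that the lower dimension
of the self-affine set `F t` is at most `1` for a set of `t` of positive measure and at least `2`
for another set of `t` of positive measure; so it is not almost surely constant. -/
theorem result :
    ∃ (d m : ℕ) (A : Fin m → (EuclideanSpace ℝ (Fin d) →L[ℝ] EuclideanSpace ℝ (Fin d))),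
      1 ≤ d ∧ 2 ≤ m ∧ (∀ i, Function.Injective (A i) ∧ ‖A i‖ < 1 / 2) ∧
      ∃ F : (Fin m → EuclideanSpace ℝ (Fin d)) → Set (EuclideanSpace ℝ (Fin d)),
        (∀ t K, IsAttractor A t K ↔ K = F t) ∧
        0 < (volume : Measure (Fin m → EuclideanSpace ℝ (Fin d))) {t | lowerDim (F t) ≤ 1} ∧
        0 < (volume : Measure (Fin m → EuclideanSpace ℝ (Fin d))) {t | 2 ≤ lowerDim (F t)} ∧
        ¬ ∃ a b : ℝ≥0∞, ∀ᵐ t ∂(volume : Measure (Fin m → EuclideanSpace ℝ (Fin d))),
          assouadDim (F t) = a ∧ lowerDim (F t) = b := by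
  refine ⟨2, 10, AA, by norm_num, by norm_num,
    fun i => ⟨AA_inj i, (AA_norm i).trans_lt (by norm_num)⟩, ?_⟩
  have hex : ∀ t : Fin 10 → E2, ∃ F, IsAttractor AA t F := fun t =>
    attractor_exists t (by norm_num) (by norm_num) AA_norm AA_inj
  choose F hF using hex
  have h1 : 0 < (volume : Measure (Fin 10 → E2)) {t | lowerDim (F t) ≤ 1} := by
    refine (far_pos far).trans_le (measure_mono ?_)
    intro t ht
    exact lower_le (close_of_ball ht) (hF t)
  have h2 : 0 < (volume : Measure (Fin 10 → E2)) {t | 2 ≤ lowerDim (F t)} := by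
    refine (far_pos 0).trans_le (measure_mono ?_)
    intro t ht
    exact lower_ge (close_of_ball ht) (hF t)
  refine ⟨F, ?_, h1, h2, ?_⟩
  · intro t K
    constructor
    · intro hK
      exact attractor_unique (by norm_num) (by norm_num) AA_norm hK (hF t)
    · rintro rfl
      exact hF t
  · rintro ⟨a, b, hab⟩
    have hb : ∀ᵐ t ∂(volume : Measure (Fin 10 → E2)), lowerDim (F t) = b :=
      hab.mono fun t ht => ht.2
    rcases le_or_gt b 1 with hb1 | hb1
    · have : (volume : Measure (Fin 10 → E2)) {t | 2 ≤ lowerDim (F t)} = 0 := by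
        refine measure_mono_null ?_ hb
        intro t ht h
        change lowerDim (F t) = b at h
        have ht' : (2 : ℝ≥0∞) ≤ lowerDim (F t) := ht
        rw [h] at ht'
        have : (2 : ℝ≥0∞) ≤ 1 := ht'.trans hb1
        norm_num at this
      exact h2.ne' this
    · have : (volume : Measure (Fin 10 → E2)) {t | lowerDim (F t) ≤ 1} = 0 := by
        refine measure_mono_null ?_ hb
        intro t ht h
        change lowerDim (F t) = b at h
        have ht' : lowerDim (F t) ≤ 1 := ht
        rw [h] at ht'
        exact absurd ht' (not_le.2 hb1)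
      exact h1.ne' this

end Pool.Agent.Results.MP_b039ef_an.LowerNotConstant
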